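import Pool.Agent.Helper49.LC.St

set_option autoImplicit false

open scoped ContDiff

namespace Pool.Agent.Helper16.LC

open Pool.Agent.Helper14.LK Pool.Agent.Helper49.LC
open Pool.Agent.Helper14.LE (StIET)

private theorem smτ : ContDiff ℝ ∞ Real.smoothTransition := Real.smoothTransition.contDiff

/-- MOV: moving the second summand. -/
theorem hMOV (hIET : StIET) (hKNB : StKNB) (hEQV : StEQV) : StMOV := by
  intro n hn α β R R' hα hβ c₀ c₁ s₀ s₁ hs₀ hs₁ H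
  obtain ⟨-, hK2, -, hK4, -, -, -⟩ := hKNB
  let τ := Real.smoothTransition
  have hτ0 : ∀ t, 0 ≤ τ t := Real.smoothTransition.nonneg
  have hτ1 : ∀ t, τ t ≤ 1 := Real.smoothTransition.le_one
  let c : ℝ → EE n := fun t => (1 - τ t) • c₀ + τ t • c₁
  let s : ℝ → ℝ := fun t => (1 - τ t) * s₀ + τ t * s₁
  have hs : ∀ t, 0 < s t := by
    intro t
    rcases lt_or_ge (τ t) 1 with h | h
    · have h1 : 0 < (1 - τ t) * s₀ := mul_pos (by linarith) hs₀
      have h2 : 0 ≤ τ t * s₁ := mul_nonneg (hτ0 t) hs₁.le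
      show 0 < (1 - τ t) * s₀ + τ t * s₁
      linarith
    · have h0 : τ t = 1 := le_antisymm (hτ1 t) h
      show 0 < (1 - τ t) * s₀ + τ t * s₁
      rw [h0]; linarith
  have hsle : ∀ t, s t ≤ s₀ + s₁ := by
    intro t
    show (1 - τ t) * s₀ + τ t * s₁ ≤ s₀ + s₁
    have h1 := hτ0 t
    have h2 := hτ1 t
    nlinarith
  have hcle : ∀ t, ‖c t‖ ≤ ‖c₀‖ + ‖c₁‖ := by
    intro t
    have h1 := hτ0 t
    have h2 := hτ1 t
    have h3 : ‖(1 - τ t) • c₀ + τ t • c₁‖ ≤ ‖(1 - τ t) • c₀‖ + ‖τ t • c₁‖ := norm_add_le _ _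
    rw [norm_smul, norm_smul, Real.norm_of_nonneg (by linarith : 0 ≤ 1 - τ t),
      Real.norm_of_nonneg h1] at h3
    refine h3.trans ?_
    have h4 := norm_nonneg c₀
    have h5 := norm_nonneg c₁
    nlinarith
  let ι : ℝ → EE n → WW n := fun t => su α (pc (c t) (s t) β)
  have hτs : ContDiff ℝ ∞ (fun p : ℝ × EE n => τ p.1) := smτ.comp contDiff_fst
  have hcs : ContDiff ℝ ∞ (fun p : ℝ × EE n => c p.1) :=
    ((contDiff_const.sub hτs).smul contDiff_const).add (hτs.smul contDiff_const)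
  have hss : ContDiff ℝ ∞ (fun p : ℝ × EE n => s p.1) :=
    ((contDiff_const.sub hτs).mul contDiff_const).add (hτs.mul contDiff_const)
  have hsi : ContDiff ℝ ∞ (fun p : ℝ × EE n => (s p.1)⁻¹) := hss.inv fun p => (hs p.1).ne'
  have hι : ContDiff ℝ ∞ (Function.uncurry ι) := by
    have h1 : ContDiff ℝ ∞ (fun p : ℝ × EE n => α p.2) := hα.sm.comp contDiff_snd
    have h2 : ContDiff ℝ ∞ (fun p : ℝ × EE n => (s p.1)⁻¹ • (p.2 - c p.1)) :=
      hsi.smul (contDiff_snd.sub hcs)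
    have h3 : ContDiff ℝ ∞ (fun p : ℝ × EE n => β ((s p.1)⁻¹ • (p.2 - c p.1))) := hβ.sm.comp h2
    have h4 : ContDiff ℝ ∞ (fun p : ℝ × EE n => ((c p.1, 0) : WW n)) := hcs.prodMk contDiff_const
    have h5 : ContDiff ℝ ∞ (fun p : ℝ × EE n => ((p.2, 0) : WW n)) :=
      contDiff_snd.prodMk contDiff_const
    exact (h1.add (h4.add (hss.smul h3))).sub h5
  have hR' := hβ.pos
  have hR := hα.pos
  have hKn : ∀ t, Kn (ι t) 0 (R + ‖c₀‖ + ‖c₁‖ + (s₀ + s₁) * R') := by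
    intro t
    have k1 : Kn (pc (c t) (s t) β) (c t) (s t * R') := by
      have := hK2 n β 0 (c t) (s t) R' hβ (hs t)
      rwa [smul_zero, add_zero] at this
    have k2 : s t * R' ≤ (s₀ + s₁) * R' := mul_le_mul_of_nonneg_right (hsle t) hR'.le
    have k3 : 0 ≤ s t * R' := (mul_pos (hs t) hR').le
    refine hK4 n α (pc (c t) (s t) β) 0 (c t) 0 R (s t * R') _ hα k1 ?_ ?_ ?_
    · rw [zero_sub, norm_neg]
      exact H (τ t) ⟨hτ0 t, hτ1 t⟩
    · rw [sub_zero, norm_zero]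
      have h4 := norm_nonneg c₀
      have h5 := norm_nonneg c₁
      linarith
    · rw [sub_zero]
      have h4 := hcle t
      linarith
  have hh := hIET n hn ι (R + ‖c₀‖ + ‖c₁‖ + (s₀ + s₁) * R') hι (fun t _ => (hKn t).iso)
    (fun t _ => (hKn t).imm) (fun t _ => (hKn t).inj)
    (fun t _ x hx => (hKn t).far x (by rwa [sub_zero]))
  have hh2 := (hEQV.1 n (by omega) _ _).1 hh
  have t0 : τ 0 = 0 := Real.smoothTransition.zero
  have t1 : τ 1 = 1 := Real.smoothTransition.one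
  have e0 : ι 0 = su α (pc c₀ s₀ β) := by
    show su α (pc ((1 - τ 0) • c₀ + τ 0 • c₁) ((1 - τ 0) * s₀ + τ 0 * s₁) β) = _
    rw [t0]; simp
  have e1 : ι 1 = su α (pc c₁ s₁ β) := by
    show su α (pc ((1 - τ 1) • c₀ + τ 1 • c₁) ((1 - τ 1) * s₀ + τ 1 * s₁) β) = _
    rw [t1]; simp
  rwa [e0, e1] at hh2

end Pool.Agent.Helper16.LC
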